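import Pool.Agent.helper54.GR3.Spec

set_option autoImplicit false

open Complex Metric Set Filter Topology MeasureTheory
open MPS (om)
open PPS (pre TT fd)
open XPS (Df er dens tau)
open Pool.Agent.helper16.Multibrot

noncomputable section

namespace GR

lemma LCK_prod (M e₁ γ e₂ : ℂ) (N G t : ℝ) (hM : ‖M‖ = N) (hγ : ‖γ‖ = G) (hN : 0 ≤ N) (hG : 0 ≤ G)
    (ht0 : 0 ≤ t) (ht1 : t ≤ 1) (h1 : ‖e₁‖ ≤ t * N) (h2 : ‖e₂‖ ≤ t * G) :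
    ‖(M + e₁) * (γ + e₂) ^ 2 - M * γ ^ 2‖ ≤ 7 * t * (N * G ^ 2) := by
  have hid : (M + e₁) * (γ + e₂) ^ 2 - M * γ ^ 2 = M * (e₂ * (2 * γ + e₂)) + e₁ * (γ + e₂) ^ 2 := by ring
  rw [hid]
  have hE0 : 0 ≤ ‖e₂‖ := norm_nonneg _
  have hE1 : 0 ≤ ‖e₁‖ := norm_nonneg _
  have ha : ‖2 * γ + e₂‖ ≤ 3 * G := by
    calc ‖2 * γ + e₂‖ ≤ ‖2 * γ‖ + ‖e₂‖ := norm_add_le _ _
      _ = 2 * G + ‖e₂‖ := by rw [norm_mul, hγ]; norm_num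
      _ ≤ 3 * G := by nlinarith
  have hb : ‖γ + e₂‖ ≤ 2 * G := by
    calc ‖γ + e₂‖ ≤ ‖γ‖ + ‖e₂‖ := norm_add_le _ _
      _ ≤ 2 * G := by rw [hγ]; nlinarith
  have hb2 : ‖γ + e₂‖ ^ 2 ≤ (2 * G) ^ 2 := by
    exact pow_le_pow_left₀ (norm_nonneg _) hb 2
  have hA : ‖M * (e₂ * (2 * γ + e₂))‖ ≤ N * ((t * G) * (3 * G)) := by
    rw [norm_mul, norm_mul, hM]
    apply mul_le_mul_of_nonneg_left _ hN
    exact mul_le_mul h2 ha (norm_nonneg _) (by positivity)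
  have hB : ‖e₁ * (γ + e₂) ^ 2‖ ≤ (t * N) * (2 * G) ^ 2 := by
    rw [norm_mul, norm_pow]
    exact mul_le_mul h1 hb2 (by positivity) (by positivity)
  calc ‖M * (e₂ * (2 * γ + e₂)) + e₁ * (γ + e₂) ^ 2‖ ≤ _ := norm_add_le _ _
    _ ≤ N * ((t * G) * (3 * G)) + (t * N) * (2 * G) ^ 2 := add_le_add hA hB
    _ = 7 * t * (N * G ^ 2) := by ring

theorem LCK : LCK_stmt := by
  intro Γ C₂ C₃ η hΓ hC₂ hC₃ hη
  obtain ⟨t, ht0, ht1, htη⟩ : ∃ t : ℝ, 0 < t ∧ t ≤ 1 ∧ 7 * t ≤ η := by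
    refine ⟨min 1 (η / 7), lt_min one_pos (by positivity), min_le_left _ _, ?_⟩
    have := min_le_right (1 : ℝ) (η / 7)
    linarith
  have hΓ0 : 0 < Γ := by linarith
  refine ⟨t / (32 * (C₃ + 1) * Γ), (16 + C₂) / t, by positivity, ?_, ?_⟩
  · rw [le_div_iff₀ ht0]; linarith
  intro ρ g bh u₀ γ xs a b P μ l hρ0 hρ hγ hu₀ hxs hl1 hlP hP hμ hb ha hg hbh
  -- constants
  have hρ' : ρ * (32 * (C₃ + 1) * Γ) ≤ t := by
    rwa [le_div_iff₀ (by positivity)] at hρ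
  have hρG : 32 * (Γ * ρ) ≤ t := by
    have : 0 ≤ ρ * (32 * C₃ * Γ) := by positivity
    nlinarith
  have hρC : 32 * (C₃ * ρ) ≤ t := by
    have h1 : 0 ≤ ρ * 32 * Γ := by positivity
    have h2 : 0 ≤ (ρ * C₃) * (Γ - 1) := mul_nonneg (by positivity) (by linarith)
    nlinarith
  have hρ32 : 32 * ρ ≤ t := by
    have h2 : 0 ≤ ρ * (Γ - 1) := mul_nonneg hρ0.le (by linarith)
    nlinarith
  have hρ1 : 32 * ρ ≤ 1 := le_trans hρ32 ht1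
  set Λ : ℝ := (16 + C₂) / t with hΛdef
  have hΛt : t * Λ = 16 + C₂ := by rw [hΛdef]; field_simp
  have hΛ16 : 16 ≤ Λ := by
    have h1 : 0 ≤ Λ := by rw [hΛdef]; positivity
    nlinarith
  have hbn : 0 ≤ ‖b‖ := norm_nonneg _
  have hb2 : Λ ≤ ‖b‖ * ρ := by
    have : ‖b‖ * ρ ^ 2 ≤ ‖b‖ * ρ := by
      apply mul_le_mul_of_nonneg_left _ hbn
      nlinarith
    linarith
  have hb1 : Λ ≤ ‖b‖ := by
    have : ‖b‖ * ρ ≤ ‖b‖ := by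
      have : ‖b‖ * ρ ≤ ‖b‖ * 1 := mul_le_mul_of_nonneg_left (by linarith) hbn
      linarith
    linarith
  have hbpos : 0 < ‖b‖ := by linarith
  have hPpos : 0 < ‖P‖ := by linarith
  have hl0 : 0 < l := by linarith
  have hl2 : 1 ≤ l ^ 2 := by nlinarith
  refine ⟨μ * (b * P) * γ ^ 2, fun u hu1 hu2 => ?_⟩
  have hN : ‖μ * (b * P)‖ = l ^ 2 * (‖b‖ * ‖P‖) := by rw [norm_mul, norm_mul, hμ]
  have hNbig : 2 * ‖b‖ ≤ l ^ 2 * (‖b‖ * ‖P‖) := by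
    have h1 : ‖b‖ * 2 ≤ ‖b‖ * ‖P‖ := mul_le_mul_of_nonneg_left hP hbn
    have h2 : 0 ≤ (l ^ 2 - 1) * (‖b‖ * ‖P‖) := mul_nonneg (by linarith) (by positivity)
    nlinarith
  have hN0 : 0 ≤ l ^ 2 * (‖b‖ * ‖P‖) := by positivity
  have hκn : ‖μ * (b * P) * γ ^ 2‖ = l ^ 2 * (‖b‖ * ‖P‖) * Γ ^ 2 := by
    rw [norm_mul, hN, norm_pow, hγ]
  have hΓ2 : 1 ≤ Γ ^ 2 := by nlinarith
  -- the point
  have hu₀' : ‖u₀‖ ≤ ρ / 16 := by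
    have : 16 * ‖u₀‖ ≤ Λ * ‖u₀‖ := mul_le_mul_of_nonneg_right hΛ16 (norm_nonneg _)
    linarith
  have hv1 : ‖u - u₀‖ ≤ 2 * ρ := by
    calc ‖u - u₀‖ ≤ ‖u‖ + ‖u₀‖ := norm_sub_le _ _
      _ ≤ 2 * ρ := by linarith
  have hv2 : 3 / 8 * ρ ≤ ‖u - u₀‖ := by
    have := norm_sub_norm_le u u₀
    linarith
  obtain ⟨hg1, hg2⟩ := hg u (by linarith)
  have hCv : C₃ * ‖u - u₀‖ ≤ t / 16 := by
    have : C₃ * ‖u - u₀‖ ≤ C₃ * (2 * ρ) := mul_le_mul_of_nonneg_left hv1 hC₃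
    nlinarith
  have hCv2 : C₃ * ‖u - u₀‖ ^ 2 ≤ ρ / 8 := by
    have h1 : C₃ * ‖u - u₀‖ ^ 2 = (C₃ * ‖u - u₀‖) * ‖u - u₀‖ := by ring
    rw [h1]
    have h2 : (C₃ * ‖u - u₀‖) * ‖u - u₀‖ ≤ (t / 16) * (2 * ρ) :=
      mul_le_mul hCv hv1 (norm_nonneg _) (by positivity)
    nlinarith
  have hylow : ρ / 4 ≤ ‖g u‖ := by
    have h1 : ‖γ * (u - u₀)‖ = Γ * ‖u - u₀‖ := by rw [norm_mul, hγ]
    have h2 : ‖γ * (u - u₀)‖ - ‖g u - γ * (u - u₀)‖ ≤ ‖g u‖ := by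
      have := norm_sub_norm_le (γ * (u - u₀)) (γ * (u - u₀) - g u)
      rw [sub_sub_cancel, norm_sub_rev (γ * (u - u₀)) (g u)] at this
      exact this
    have h3 : 3 / 8 * ρ ≤ Γ * ‖u - u₀‖ := by
      have : 0 ≤ (Γ - 1) * ‖u - u₀‖ := mul_nonneg (by linarith) (norm_nonneg _)
      linarith
    linarith
  have hyup : ‖g u‖ ≤ 3 * (Γ * ρ) := by
    have h1 : ‖γ * (u - u₀)‖ = Γ * ‖u - u₀‖ := by rw [norm_mul, hγ]
    have h2 : ‖g u‖ ≤ ‖γ * (u - u₀)‖ + ‖g u - γ * (u - u₀)‖ := by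
      have := norm_add_le (γ * (u - u₀)) (g u - γ * (u - u₀))
      rwa [add_sub_cancel] at this
    have h3 : Γ * ‖u - u₀‖ ≤ Γ * (2 * ρ) := mul_le_mul_of_nonneg_left hv1 hΓ0.le
    have h4 : ρ ≤ Γ * ρ := by
      have : 0 ≤ (Γ - 1) * ρ := mul_nonneg (by linarith) hρ0.le
      linarith
    linarith
  have hypos : 0 < ‖g u‖ := by linarith
  have hyhalf : ‖g u‖ ≤ 1 / 2 := by linarith
  have herr := hbh (g u) hypos hyhalf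
  -- e1
  have he1 : ‖bh (g u) - μ * (b * P)‖ ≤ t * (l ^ 2 * (‖b‖ * ‖P‖)) := by
    have hid : bh (g u) - μ * (b * P) = (bh (g u) - xs / g u - μ * (a + b * (P + (l : ℂ) * g u)))
        + xs / g u + μ * a + μ * (b * ((l : ℂ) * g u)) := by ring
    rw [hid]
    have t1 : ‖bh (g u) - xs / g u - μ * (a + b * (P + (l : ℂ) * g u))‖ ≤ t / 4 * (l ^ 2 * (‖b‖ * ‖P‖)) := by
      refine le_trans herr ?_
      rw [div_le_iff₀ hPpos]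
      have h1 : 4 ≤ ‖P‖ * ‖P‖ := by nlinarith
      have h2 : C₂ ≤ t * ‖b‖ := by
        have : t * Λ ≤ t * ‖b‖ := mul_le_mul_of_nonneg_left hb1 ht0.le
        linarith
      have h3 : C₂ ≤ t / 4 * (‖b‖ * (‖P‖ * ‖P‖)) := by
        have : ‖b‖ * 4 ≤ ‖b‖ * (‖P‖ * ‖P‖) := mul_le_mul_of_nonneg_left h1 hbn
        have h5 : t / 4 * (‖b‖ * 4) ≤ t / 4 * (‖b‖ * (‖P‖ * ‖P‖)) := mul_le_mul_of_nonneg_left this (by positivity)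
        linarith
      have h4 : l ^ 2 * C₂ ≤ l ^ 2 * (t / 4 * (‖b‖ * (‖P‖ * ‖P‖))) := mul_le_mul_of_nonneg_left h3 (by positivity)
      calc C₂ * l ^ 2 = l ^ 2 * C₂ := by ring
        _ ≤ _ := h4
        _ = _ := by ring
    have t2 : ‖xs / g u‖ ≤ t / 4 * (l ^ 2 * (‖b‖ * ‖P‖)) := by
      rw [norm_div, div_le_iff₀ hypos]
      have h1 : t / 4 * (2 * ‖b‖) ≤ t / 4 * (l ^ 2 * (‖b‖ * ‖P‖)) := mul_le_mul_of_nonneg_left hNbig (by positivity)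
      have h2 : t / 4 * (2 * ‖b‖) * (ρ / 4) ≤ t / 4 * (l ^ 2 * (‖b‖ * ‖P‖)) * ‖g u‖ :=
        mul_le_mul h1 hylow (by positivity) (by positivity)
      have h3 : t * Λ ≤ t * (‖b‖ * ρ) := mul_le_mul_of_nonneg_left hb2 ht0.le
      nlinarith
    have t3 : ‖μ * a‖ ≤ t / 4 * (l ^ 2 * (‖b‖ * ‖P‖)) := by
      rw [norm_mul, hμ]
      have h1 : Λ * ‖a‖ ≤ Λ * (t / 4 * (‖b‖ * 2)) := by
        have h5 : ‖b‖ * ρ ≤ ‖b‖ * 8 := mul_le_mul_of_nonneg_left (by linarith) hbn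
        have h6 : Λ * (t / 4 * (‖b‖ * 2)) = (t * Λ) / 2 * ‖b‖ := by ring
        rw [h6, hΛt]
        have h7 : 0 ≤ C₂ / 2 * ‖b‖ := by positivity
        linarith
      have h2 : ‖a‖ ≤ t / 4 * (‖b‖ * 2) := le_of_mul_le_mul_left h1 (by linarith)
      have h3 : t / 4 * (‖b‖ * 2) ≤ t / 4 * (‖b‖ * ‖P‖) :=
        mul_le_mul_of_nonneg_left (mul_le_mul_of_nonneg_left hP hbn) (by positivity)
      calc l ^ 2 * ‖a‖ ≤ l ^ 2 * (t / 4 * (‖b‖ * ‖P‖)) := mul_le_mul_of_nonneg_left (le_trans h2 h3) (by positivity)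
        _ = _ := by ring
    have t4 : ‖μ * (b * ((l : ℂ) * g u))‖ ≤ t / 4 * (l ^ 2 * (‖b‖ * ‖P‖)) := by
      rw [norm_mul, norm_mul, norm_mul, hμ, Complex.norm_real, Real.norm_eq_abs, abs_of_pos hl0]
      have h1 : l * ‖g u‖ ≤ ‖P‖ * (t / 4) := by
        apply mul_le_mul hlP _ (norm_nonneg _) hPpos.le
        linarith
      calc l ^ 2 * (‖b‖ * (l * ‖g u‖)) ≤ l ^ 2 * (‖b‖ * (‖P‖ * (t / 4))) :=
            mul_le_mul_of_nonneg_left (mul_le_mul_of_nonneg_left h1 hbn) (by positivity)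
        _ = _ := by ring
    calc ‖(bh (g u) - xs / g u - μ * (a + b * (P + (l : ℂ) * g u))) + xs / g u + μ * a + μ * (b * ((l : ℂ) * g u))‖
        ≤ ‖bh (g u) - xs / g u - μ * (a + b * (P + (l : ℂ) * g u))‖ + ‖xs / g u‖ + ‖μ * a‖ + ‖μ * (b * ((l : ℂ) * g u))‖ :=
          norm_add₄_le
      _ ≤ t * (l ^ 2 * (‖b‖ * ‖P‖)) := by linarith
  have he2 : ‖deriv g u - γ‖ ≤ t * Γ := by
    refine le_trans hg2 (le_trans hCv ?_)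
    have : 0 ≤ t * (Γ - 1) := mul_nonneg ht0.le (by linarith)
    linarith
  constructor
  · have := LCK_prod (μ * (b * P)) (bh (g u) - μ * (b * P)) γ (deriv g u - γ) (l ^ 2 * (‖b‖ * ‖P‖)) Γ t
      hN hγ hN0 hΓ0.le ht0.le ht1 he1 he2
    rw [add_sub_cancel, add_sub_cancel] at this
    rw [hκn]
    refine le_trans this ?_
    apply mul_le_mul_of_nonneg_right htη (by positivity)
  · rw [hκn]
    have : 1 ≤ l ^ 2 * (‖b‖ * ‖P‖) := by linarith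
    nlinarith

end GR
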